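import Pool.Agent.Work.MP_cd91b4_al.Assemble

/-!
# The Tachikawa conjecture for graded Cohen-Macaulay rings

Let `A` be a Noetherian local ring, `rs` an `A`-regular sequence in the maximal ideal such that
`R = A/(rs)` is a finite dimensional, non-negatively graded `k`-algebra with degree-zero part `k`,
`k` a field of characteristic different from `2` (for instance `A` the localisation of a
positively graded Cohen-Macaulay `k`-algebra at its irrelevant maximal ideal, its completion, or any
local ring deforming a graded Artinian `k`-algebra).  Let `ω` be a canonical module of `A`, with the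
same hypotheses as in the frozen statement (`d = rs.length` is the dimension of `A`).  If
`Ext^j(ω,A)=0` for `0 < j ≤ d + 4c + 2`, where `c` is (at least) the top degree of `R`, then `A` has
finite injective dimension, i.e. `A` is Gorenstein.
-/

set_option autoImplicit false
open CategoryTheory IsLocalRing RingTheory.Sequence

namespace Pool.Agent.Results.MP_cd91b4_al.GradedTachikawa

theorem result :
    ∀ (A : Type) [CommRing A] [IsNoetherianRing A] [IsLocalRing A]
      [CategoryTheory.HasExt.{0} (ModuleCat.{0} A)] (rs : List A),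
      (∀ r ∈ rs, r ∈ maximalIdeal A) → IsWeaklyRegular A rs →
      ∀ (k : Type) [Field k] [Algebra k (A ⧸ Ideal.ofList rs)]
        [Module.Finite k (A ⧸ Ideal.ofList rs)]
        (𝒜 : ℕ → Submodule k (A ⧸ Ideal.ofList rs)) [GradedAlgebra 𝒜],
      (2 : k) ≠ 0 → 𝒜 0 = 1 →
      ∀ (c : ℕ), (∀ i, c < i → 𝒜 i = ⊥) →
      ∀ (ω : Type) [AddCommGroup ω] [Module A ω] [Module.Finite A ω],
      (∃ xs : List A, (∀ x ∈ xs, x ∈ maximalIdeal A) ∧
        IsWeaklyRegular ω xs ∧ xs.length = rs.length ∧
        Nonempty ((ResidueField A →ₗ[A] (ω ⧸ (Ideal.ofList xs • (⊤ : Submodule A ω))))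
          ≃ₗ[A] ResidueField A)) →
      (∃ n : ℕ, ∀ i : ℕ, n < i →
        Subsingleton (Abelian.Ext (ModuleCat.of A (ResidueField A)) (ModuleCat.of A ω) i)) →
      (∀ j : ℕ, 0 < j → j ≤ rs.length + (4 * c + 2) →
        Subsingleton (Abelian.Ext (ModuleCat.of A ω) (ModuleCat.of A A) j)) →
      ∃ n : ℕ, ∀ i : ℕ, n < i →
        Subsingleton (Abelian.Ext (ModuleCat.of A (ResidueField A)) (ModuleCat.of A A) i) := by
  intro A _ _ _ _ rs hm hw k _ _ _ 𝒜 _ h2 h0 c hc ω _ _ _ hxs hinj hext
  obtain ⟨xs, hxm, hxw, hxl, hx1⟩ := hxs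
  exact Pool.Agent.Tach.main A rs hm hw k 𝒜 h2 h0 c hc ω xs hxm hxw hxl hx1 hinj hext

end Pool.Agent.Results.MP_cd91b4_al.GradedTachikawa
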