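import Pool.Agent.Work.MP_cd91b4_al.TwoMain

/-!
# The Tachikawa conjecture for Cohen-Macaulay local rings of type at most two

Let `R` be a Cohen-Macaulay local ring of dimension `d` with canonical module `ω` (the hypotheses
are verbatim those of the frozen statement), and suppose that `ω` is generated by two elements,
i.e. `R` has type at most two.  If `Ext^j(ω,R)=0` for `2 ≤ j ≤ d + 2`, then `R` is Gorenstein.
No assumption on the characteristic, on gradings or on generic Gorensteinness.
-/

set_option autoImplicit false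
open CategoryTheory IsLocalRing RingTheory.Sequence

namespace Pool.Agent.Results.MP_cd91b4_al.TypeTwo

theorem result :
    ∀ (R : Type) [CommRing R] [IsNoetherianRing R] [IsLocalRing R]
      [CategoryTheory.HasExt.{0} (ModuleCat.{0} R)] (d : ℕ),
      ringKrullDim R = (d : WithBot ℕ∞) →
      (∃ rs : List R, (∀ r ∈ rs, r ∈ maximalIdeal R) ∧
        IsWeaklyRegular R rs ∧ rs.length = d) →
      ∀ (ω : Type) [AddCommGroup ω] [Module R ω] [Module.Finite R ω],
      (∃ xs : List R, (∀ x ∈ xs, x ∈ maximalIdeal R) ∧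
        IsWeaklyRegular ω xs ∧ xs.length = d ∧
        Nonempty ((ResidueField R →ₗ[R] (ω ⧸ (Ideal.ofList xs • (⊤ : Submodule R ω))))
          ≃ₗ[R] ResidueField R)) →
      (∃ n : ℕ, ∀ i : ℕ, n < i →
        Subsingleton (Abelian.Ext (ModuleCat.of R (ResidueField R)) (ModuleCat.of R ω) i)) →
      (∃ a b : ω, Submodule.span R {a, b} = ⊤) →
      (∀ j : ℕ, 2 ≤ j → j ≤ d + 2 →
        Subsingleton (Abelian.Ext (ModuleCat.of R ω) (ModuleCat.of R R) j)) →
      ∃ n : ℕ, ∀ i : ℕ, n < i →
        Subsingleton (Abelian.Ext (ModuleCat.of R (ResidueField R)) (ModuleCat.of R R) i) := by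
  intro R _ _ _ _ d hdim hrs ω _ _ _ hxs hinj hab hext
  obtain ⟨rs, hm, hw, rfl⟩ := hrs
  obtain ⟨xs, hxm, hxw, hxl, hx1⟩ := hxs
  obtain ⟨a, b, hab⟩ := hab
  refine Pool.Agent.Tach.two_main R rs hm hw hdim ω xs hxm hxw hxl hx1 hinj ![a, b] ?_
    (fun j hj hj' => hext j hj hj')
  rw [Matrix.range_cons, Matrix.range_cons, Matrix.range_empty, Set.union_empty]
  exact hab

end Pool.Agent.Results.MP_cd91b4_al.TypeTwo
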